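import Pool.Agent.Results.MP_391708_nt.FullConstantInClasses
import Pool.Agent.H373R2.T7.LamZ2

set_option autoImplicit false

/-!
Primes `|n² + a|`: the constant of Hardy and Littlewood is at least `1 / (2 log N)` for all but `N / (log N)^U` of the
`|a| ≤ N`; with the theorem `FullConstantInClasses` (helper74).
-/

namespace Pool.Agent.J4.H74.TC

open Finset Filter Topology
open Pool.Agent.H373R2.T7 (Vz pz Vz_pos Vz_inv_small mem_pz)
open Pool.Agent.W468.ConjF (PJ SJ)
open Pool.Agent.Results.MP_391708_nt.FullConstantInClasses (product IsConstant theta Good exceptions)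

lemma product_succ (a : ℤ) {z : ℕ} (hz : 2 ≤ z) :
    product a (z + 1) = product a z *
      (if (z + 1).Prime then (1 - (jacobiSym (-a) (z + 1) : ℝ) / (((z + 1 : ℕ) : ℝ) - 1)) else 1) := by
  unfold product
  rw [prod_filter, prod_filter, Finset.prod_Icc_succ_top (by omega)]

lemma Vz_succ (z : ℕ) : Vz (z + 1) = Vz z * (if (z + 1).Prime then (1 - 1 / (((z + 1 : ℕ) : ℝ))) else 1) := by
  unfold Vz pz
  rw [prod_filter, prod_filter, Finset.prod_Icc_succ_top (by omega)]

lemma product_ge (a : ℤ) (z : ℕ) (hz : 2 ≤ z) : (z : ℝ) / (z - 1) * Vz z ≤ product a z := by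
  induction z, hz using Nat.le_induction with
  | base =>
    have h1 : product a 2 = 1 := by
      unfold product
      rw [show (Icc 3 2 : Finset ℕ) = ∅ from rfl, filter_empty, prod_empty]
    have h2 : Vz 2 = 1 / 2 := by
      have h0 : Vz 0 = 1 := by
        unfold Vz pz
        rw [show (Icc 1 0 : Finset ℕ) = ∅ from rfl, filter_empty, prod_empty]
      rw [Vz_succ 1, Vz_succ 0, h0, if_neg (by norm_num), if_pos (by norm_num)]
      norm_num
    rw [h1, h2]
    norm_num
  | succ z hz ih =>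
    have hz2 : (2 : ℝ) ≤ z := by exact_mod_cast hz
    have hV := Vz_pos z
    rw [product_succ a hz, Vz_succ z]
    push_cast
    have e1 : (z : ℝ) + 1 - 1 = z := by ring
    rw [e1]
    by_cases hp : (z + 1).Prime
    · rw [if_pos hp, if_pos hp]
      have h1 : 1 - 1 / (z : ℝ) ≤ 1 - (jacobiSym (-a) (z + 1) : ℝ) / z := by
        have h2 : (jacobiSym (-a) (z + 1) : ℝ) ≤ 1 := by
          rcases jacobiSym.trichotomy (-a) (z + 1) with h | h | h <;> rw [h] <;> norm_num
        have h3 : (jacobiSym (-a) (z + 1) : ℝ) / z ≤ 1 / z := div_le_div_of_nonneg_right h2 (by linarith)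
        linarith
      have h4 : 0 ≤ 1 - 1 / (z : ℝ) := by
        rw [sub_nonneg, div_le_one (by linarith)]
        linarith
      calc ((z : ℝ) + 1) / z * (Vz z * (1 - 1 / ((z : ℝ) + 1))) = Vz z := by
            field_simp
            ring
        _ = (z : ℝ) / (z - 1) * Vz z * (1 - 1 / z) := by
            have h5 : (z : ℝ) - 1 ≠ 0 := by
              have : (0 : ℝ) < z - 1 := by linarith
              exact this.ne'
            field_simp
        _ ≤ product a z * (1 - (jacobiSym (-a) (z + 1) : ℝ) / z) :=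
            mul_le_mul ih h1 h4 (le_trans (by
              have : (0 : ℝ) < z - 1 := by linarith
              positivity) ih)
    · rw [if_neg hp, if_neg hp, mul_one, mul_one]
      refine le_trans ?_ ih
      apply mul_le_mul_of_nonneg_right _ hV.le
      rw [div_le_div_iff₀ (by linarith) (by linarith)]
      nlinarith

lemma Vz_le_product (a : ℤ) (z : ℕ) (hz : 2 ≤ z) : Vz z ≤ product a z := by
  refine le_trans ?_ (product_ge a z hz)
  have hz2 : (2 : ℝ) ≤ z := by exact_mod_cast hz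
  have hV := Vz_pos z
  have h1 : 1 ≤ (z : ℝ) / (z - 1) := by
    rw [le_div_iff₀ (by linarith)]
    linarith
  nlinarith

/-- the constant exists and is at least `1 / (2 log N)` -/
def Large (N : ℕ) (a : ℤ) : Prop := ∃ H : ℝ, IsConstant a H ∧ 1 / (2 * Real.log N) ≤ H

open Classical in
theorem large_count (U : ℕ) : ∃ N₀ : ℕ, ∀ N : ℕ, N₀ ≤ N →
    (((Icc (-(N : ℤ)) N).filter (fun a : ℤ => ¬ Large N a)).card : ℝ) ≤ N / Real.log N ^ U := by
  obtain ⟨E, hE⟩ : ∃ E : ℕ, E = 3 * (U + 1 + 1) + 4 := ⟨_, rfl⟩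
  obtain ⟨N₁, h1⟩ := Pool.Agent.R460.SC.tail_both 1 one_ne_zero 0 (1 / 4) (by norm_num) (U + 1) (E + 1)
  obtain ⟨N₂, h2⟩ := Vz_inv_small (E + 1)
  obtain ⟨N₃, h3⟩ := Filter.eventually_atTop.1
    (Pool.Agent.Y614.GJ.Core.ev_log (U + 1) (s := 1 / 2) (by norm_num) 100)
  refine ⟨N₁ + N₂ + N₃ + 3, fun N hN => ?_⟩
  obtain ⟨hLb, hLp⟩ := h3 N (by omega)
  have hN1 : 1 ≤ N := by omega
  have hN1r : (1 : ℝ) ≤ N := by exact_mod_cast hN1
  have c1 := h1 N (by omega)
  have c2 := h2 N (by omega)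
  obtain ⟨L, hL⟩ : ∃ L, L = Real.log (N : ℝ) := ⟨_, rfl⟩
  rw [← hL] at hLb hLp c1 c2 ⊢
  have hL0 : 0 < L := by linarith
  have hL1 : 1 ≤ L := by linarith
  obtain ⟨z, hz⟩ : ∃ z, z = ⌈L ^ E⌉₊ := ⟨_, rfl⟩
  have hzlo : L ^ E ≤ z := by rw [hz]; exact Nat.le_ceil _
  have hL1E : 1 ≤ L ^ E := one_le_pow₀ hL1
  have hzhi : (z : ℝ) ≤ L ^ (E + 1) := by
    have := Nat.ceil_lt_add_one (show 0 ≤ L ^ E by positivity)
    rw [← hz] at this
    calc (z : ℝ) ≤ L ^ E + 1 := this.le
      _ ≤ L ^ E + L ^ E := by linarith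
      _ = 2 * L ^ E := by ring
      _ ≤ L * L ^ E := mul_le_mul_of_nonneg_right (by linarith) (by positivity)
      _ = L ^ (E + 1) := by ring
  have hzL : L ≤ z := (le_self_pow₀ hL1 (by omega)).trans hzlo
  have hz2 : 2 ≤ z := by
    have : (2 : ℝ) ≤ z := by linarith
    exact_mod_cast this
  obtain ⟨Ex, hEx1, hEx2⟩ := c1 z (by rw [← hE]; exact hzlo) hzhi 1 le_rfl (by
    rw [Nat.cast_one]
    exact Real.one_le_rpow hN1r (by norm_num)) 0
  have d3 := c2 z (by omega) hzhi
  have hsub : (Icc (-(N : ℤ)) N).filter (fun a : ℤ => ¬ Large N a) ⊆ Ex := by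
    intro a ha
    rw [mem_filter, mem_Icc] at ha
    by_contra hE'
    apply ha.2
    obtain ⟨e1, e2⟩ := hEx2 a ha.1.1 ha.1.2 (by simp [Int.modEq_iff_dvd]) hE'
    have hz0 : (0 : ℝ) < z := by linarith
    have hLU : 1 / L ^ (U + 1) ≤ 1 / 100 := by
      apply one_div_le_one_div_of_le (by norm_num)
      exact hLb.trans (le_self_pow₀ hL1 (by omega))
    have h5z : 5 / (z : ℝ) ≤ 5 / 100 := div_le_div_of_nonneg_left (by norm_num) (by norm_num) (by linarith)
    obtain ⟨ℓ, hℓ0, hℓ, hℓ1⟩ := Pool.Agent.R460.SC.PJ_lim e1 hz2 (by positivity) (by linarith) e2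
    have hℓ2 : 1 / 2 ≤ ℓ := by
      have := (abs_le.1 hℓ1).1
      linarith
    refine ⟨product a z * ℓ, ?_, ?_⟩
    · unfold IsConstant
      refine (hℓ.const_mul (product a z)).congr' ?_
      filter_upwards [eventually_ge_atTop z] with M hM
      have e3 := Pool.Agent.R460.SC.Sz_split' (a := 1) (b := 0) (c := a) one_ne_zero hz2 (by simpa using (by omega : 1 ≤ z)) hM
      rw [neg_zero] at e3
      rw [Pool.Agent.R460.SB.Sz_leg, Pool.Agent.R460.SB.Sz_leg] at e3
      exact e3.symm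
    · have g1 := Vz_le_product a z hz2
      have g2 := Vz_pos z
      have g3 : 1 / L ≤ Vz z := by
        rw [div_le_iff₀ hL0]
        have := mul_le_mul_of_nonneg_left d3 g2.le
        rw [mul_inv_cancel₀ g2.ne'] at this
        linarith
      rw [← hL]
      calc 1 / (2 * L) = (1 / L) * (1 / 2) := by
            field_simp
        _ ≤ product a z * ℓ := mul_le_mul (g3.trans g1) hℓ2 (by norm_num) (g2.le.trans g1)
  have hcard : (((Icc (-(N : ℤ)) N).filter (fun a : ℤ => ¬ Large N a)).card : ℝ) ≤ #Ex := by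
    exact_mod_cast card_le_card hsub
  refine hcard.trans (hEx1.trans ?_)
  rw [Nat.cast_one, one_mul]
  have hLU0 : 0 < L ^ (U + 1) := by positivity
  have k1 : L ^ (U + 1) ≤ N := by
    refine hLp.trans ?_
    calc (N : ℝ) ^ (1 / 2 : ℝ) ≤ (N : ℝ) ^ (1 : ℝ) := Real.rpow_le_rpow_of_exponent_le hN1r (by norm_num)
      _ = N := Real.rpow_one _
  have k2 : 1 ≤ (N : ℝ) / L ^ (U + 1) := by
    rw [le_div_iff₀ hLU0]
    linarith
  have k3 : 3 * ((N : ℝ) / L ^ (U + 1)) ≤ N / L ^ U := by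
    have e : 3 * ((N : ℝ) / L ^ (U + 1)) = N / L ^ U * (3 / L) := by
      rw [pow_succ]
      field_simp
    rw [e]
    apply mul_le_of_le_one_right (by positivity)
    rw [div_le_one hL0]
    linarith
  linarith

end Pool.Agent.J4.H74.TC
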