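import Pool.Agent.J4.H74.TC.A
import Pool.Agent.J4.H74.Dyad

set_option autoImplicit false

/-!
Primes `|n² + a|` with relative error, for all but `X / (log X)^U` of the `|a| ≤ X` (helper74).
-/

namespace Pool.Agent.J4.H74.TC

open Finset Filter Topology
open Pool.Agent.Results.MP_391708_nt.FullConstantInClasses (product IsConstant theta Good exceptions)

/-- the formula at scale `N` -/
def GoodP (C N : ℕ) (a : ℤ) : Prop := ∃ H : ℝ, IsConstant a H ∧ 1 / (2 * Real.log N) ≤ H ∧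
  ∀ y : ℕ, y ^ 2 ≤ N → |theta a y - H * y| ≤ Real.sqrt N / Real.log N ^ C

open Classical in
lemma goodP_count (C U : ℕ) : ∃ N₀ : ℕ, ∀ N : ℕ, N₀ ≤ N →
    (((Icc (-(N : ℤ)) N).filter (fun a : ℤ => ¬ GoodP C N a)).card : ℝ) ≤ N / Real.log N ^ U := by
  obtain ⟨N₁, h1⟩ := large_count (U + 1)
  obtain ⟨N₂, h2⟩ := Pool.Agent.Results.MP_391708_nt.FullConstantInClasses.result (1 / 4) (by norm_num) (U + 1) C 0
  obtain ⟨N₃, h3⟩ := Filter.eventually_atTop.1
    (Pool.Agent.Y614.GJ.Core.ev_log 1 (s := 1) (by norm_num) 2)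
  refine ⟨N₁ + N₂ + N₃ + 1, fun N hN => ?_⟩
  have hL2 := (h3 N (by omega)).1
  have hN1 : 1 ≤ N := by omega
  have hN1r : (1 : ℝ) ≤ N := by exact_mod_cast hN1
  have c1 := h1 N (by omega)
  have c2 := h2 N (by omega) 1 le_rfl (by
    rw [Nat.cast_one]
    exact Real.one_le_rpow hN1r (by norm_num)) (by simp) 0 (by simp)
  unfold exceptions at c2
  have hsub : (Icc (-(N : ℤ)) N).filter (fun a : ℤ => ¬ GoodP C N a) ⊆
      (Icc (-(N : ℤ)) N).filter (fun a : ℤ => ¬ Large N a) ∪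
      (Icc (-(N : ℤ)) N).filter (fun a : ℤ => a ≡ 0 [ZMOD ((1 : ℕ) : ℤ)] ∧ ¬ Good C N a) := by
    intro a ha
    rw [mem_filter] at ha
    rw [mem_union, mem_filter, mem_filter]
    by_contra hcon
    push Not at hcon
    obtain ⟨k1, k2⟩ := hcon
    have g1 := k1 ha.1
    have g2 := k2 ha.1 (by simp [Int.modEq_iff_dvd])
    obtain ⟨H, hH1, hH2⟩ := g1
    obtain ⟨-, H', hH3, hH4⟩ := g2
    have e : H = H' := tendsto_nhds_unique hH1 hH3
    subst e
    exact ha.2 ⟨H, hH1, hH2, hH4⟩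
  have hcard : (((Icc (-(N : ℤ)) N).filter (fun a : ℤ => ¬ GoodP C N a)).card : ℝ) ≤
      (((Icc (-(N : ℤ)) N).filter (fun a : ℤ => ¬ Large N a)).card : ℝ) +
      (((Icc (-(N : ℤ)) N).filter (fun a : ℤ => a ≡ 0 [ZMOD ((1 : ℕ) : ℤ)] ∧ ¬ Good C N a)).card : ℝ) := by
    exact_mod_cast (card_le_card hsub).trans (card_union_le _ _)
  refine hcard.trans ((add_le_add c1 c2).trans ?_)
  rw [Nat.cast_one, one_mul]
  have hL0 : 0 < Real.log (N : ℝ) := by linarith
  have e : (N : ℝ) / Real.log N ^ (U + 1) + N / Real.log N ^ (U + 1) = N / Real.log N ^ U * (2 / Real.log N) := by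
    rw [pow_succ]
    field_simp
    ring
  rw [e]
  apply mul_le_of_le_one_right (by positivity)
  rw [div_le_one hL0]
  exact hL2

/-- The asymptotic formula of Hardy and Littlewood for the primes `|n² + a|`, `n ≤ y`, for `y = √|a|` up to powers of
the logarithm. -/
def Formula (A : ℕ) (a : ℤ) : Prop :=
  ∃ H : ℝ, IsConstant a H ∧ 1 / (4 * Real.log |(a : ℝ)|) ≤ H ∧
    ∀ y : ℕ, Real.sqrt |(a : ℝ)| / Real.log |(a : ℝ)| ^ A ≤ y → y ≤ Real.sqrt |(a : ℝ)| * Real.log |(a : ℝ)| ^ A →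
      |theta a y - H * y| ≤ H * y / Real.log |(a : ℝ)| ^ A

/-- the scale of `m` -/
def sc (A X : ℕ) : ℕ := X * (Nat.log 2 X) ^ (2 * A)

lemma formula_of_goodP (A : ℕ) : ∃ m₀ : ℕ, ∀ m : ℕ, m₀ ≤ m → ∀ a : ℤ, a.natAbs = m →
    GoodP (4 * A + 4) (sc A (2 ^ (Nat.log 2 m + 1))) a → Formula A a := by
  have e1 : ∀ᶠ m : ℕ in atTop, 8 * 4 ^ A ≤ Real.log m :=
    (Real.tendsto_log_atTop.comp tendsto_natCast_atTop_atTop).eventually_ge_atTop _
  have e2 : ∀ᶠ m : ℕ in atTop, 2 * (4 * Real.log m) ^ (2 * A) ≤ m := by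
    have h3 := (Real.isLittleO_pow_log_id_atTop (n := 2 * A)).bound
      (show (0 : ℝ) < 1 / (2 * 4 ^ (2 * A)) by positivity)
    have h4 := tendsto_natCast_atTop_atTop (R := ℝ).eventually h3
    filter_upwards [h4, eventually_ge_atTop 1] with X hX hX1
    have hX1' : (1 : ℝ) ≤ X := by exact_mod_cast hX1
    rw [id, Real.norm_of_nonneg (by linarith : (0 : ℝ) ≤ X),
      Real.norm_of_nonneg (pow_nonneg (Real.log_nonneg hX1') _), div_mul_eq_mul_div, one_mul,
      le_div_iff₀ (by positivity)] at hX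
    rw [mul_pow]
    linarith
  obtain ⟨m₁, h1⟩ := eventually_atTop.1 (e1.and e2)
  refine ⟨max m₁ 8, fun m hm a ha hg => ?_⟩
  obtain ⟨hl, hp⟩ := h1 m ((le_max_left _ _).trans hm)
  have hm8 : 8 ≤ m := (le_max_right _ _).trans hm
  have hm8' : (8 : ℝ) ≤ m := by exact_mod_cast hm8
  have hm0 : (0 : ℝ) < m := by linarith
  have habs : |(a : ℝ)| = m := by
    rw [← ha, Nat.cast_natAbs, Int.cast_abs]
  unfold Formula
  rw [habs]
  obtain ⟨l, hl_def⟩ : ∃ l, l = Real.log (m : ℝ) := ⟨_, rfl⟩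
  rw [← hl_def] at hl hp ⊢
  have h4A : (1 : ℝ) ≤ 4 ^ A := one_le_pow₀ (by norm_num)
  have hl8 : 8 ≤ l := by linarith
  have hl0 : 0 < l := by linarith
  obtain ⟨j, hj⟩ : ∃ j, j = Nat.log 2 m + 1 := ⟨_, rfl⟩
  rw [← hj] at hg
  obtain ⟨X, hX⟩ : ∃ X : ℕ, X = 2 ^ j := ⟨_, rfl⟩
  rw [← hX] at hg
  have hX1 : m ≤ X := by
    rw [hX, hj]
    exact (Nat.lt_pow_succ_log_self (b := 2) (by norm_num) m).le
  have hX2 : X ≤ 2 * m := by
    have h1 : 2 ^ (Nat.log 2 m) ≤ m := Nat.pow_log_le_self 2 (by omega)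
    rw [hX, hj, pow_succ]
    omega
  have hX1r : (m : ℝ) ≤ X := by exact_mod_cast hX1
  have hX2r : (X : ℝ) ≤ 2 * m := by exact_mod_cast hX2
  have hX0 : (0 : ℝ) < X := by linarith
  have hlogX : Nat.log 2 X = j := by
    rw [hX]
    exact Nat.log_pow (by norm_num) j
  have hl2 : 1 / 2 < Real.log 2 := by
    have := Real.log_two_gt_d9
    linarith
  have hlX : Real.log (X : ℝ) = j * Real.log 2 := by
    rw [hX]
    push_cast
    rw [Real.log_pow]
  have hlmX : l ≤ Real.log X := by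
    rw [hl_def]
    exact Real.log_le_log hm0 hX1r
  have hlX2 : Real.log X ≤ 2 * l := by
    have h2 : Real.log (X : ℝ) ≤ Real.log ((m : ℝ) ^ 2) := by
      apply Real.log_le_log hX0
      nlinarith
    rw [Real.log_pow] at h2
    rw [hl_def]
    exact_mod_cast h2
  have hj0 : (0 : ℝ) ≤ j := Nat.cast_nonneg j
  have hj4 : (j : ℝ) ≤ 4 * l := by
    have : (j : ℝ) * (1 / 2) ≤ j * Real.log 2 := mul_le_mul_of_nonneg_left hl2.le hj0
    linarith
  have hjl : l ≤ j := by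
    have h2 : Real.log 2 ≤ 1 := by
      have := Real.log_two_lt_d9
      linarith
    have : (j : ℝ) * Real.log 2 ≤ j * 1 := mul_le_mul_of_nonneg_left h2 hj0
    linarith
  have hj1 : (1 : ℝ) ≤ j := by linarith
  obtain ⟨N, hN⟩ : ∃ N : ℕ, N = sc A X := ⟨_, rfl⟩
  rw [← hN] at hg
  have hNr : (N : ℝ) = X * (j : ℝ) ^ (2 * A) := by
    rw [hN]
    unfold sc
    rw [hlogX]
    push_cast
    ring
  have hXN : (X : ℝ) ≤ N := by
    rw [hNr]
    exact le_mul_of_one_le_right hX0.le (one_le_pow₀ hj1)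
  have hN0 : (0 : ℝ) < N := by linarith
  have hlN1 : l ≤ Real.log N := hlmX.trans (Real.log_le_log hX0 hXN)
  have hNm : (N : ℝ) ≤ m ^ 2 := by
    rw [hNr]
    calc (X : ℝ) * (j : ℝ) ^ (2 * A) ≤ 2 * m * (4 * l) ^ (2 * A) := by gcongr
      _ = m * (2 * (4 * l) ^ (2 * A)) := by ring
      _ ≤ m * m := mul_le_mul_of_nonneg_left hp hm0.le
      _ = m ^ 2 := by ring
  have hlN2 : Real.log N ≤ 2 * l := by
    have h2 := Real.log_le_log hN0 hNm
    rw [Real.log_pow] at h2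
    rw [hl_def]
    exact_mod_cast h2
  obtain ⟨H, hH1, hH2, hH3⟩ := hg
  have hlN0 : 0 < Real.log (N : ℝ) := by linarith
  have hHlo : 1 / (4 * l) ≤ H := by
    refine le_trans ?_ hH2
    apply one_div_le_one_div_of_le (by positivity)
    linarith
  refine ⟨H, hH1, hHlo, fun y hy1 hy2 => ?_⟩
  obtain ⟨s, hs⟩ : ∃ s, s = Real.sqrt (m : ℝ) := ⟨_, rfl⟩
  rw [← hs] at hy1 hy2
  have hs0 : 0 < s := by rw [hs]; exact Real.sqrt_pos.2 hm0
  have hss : s * s = m := by rw [hs]; exact Real.mul_self_sqrt hm0.le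
  have hy0 : (0 : ℝ) ≤ y := Nat.cast_nonneg y
  have hyN : y ^ 2 ≤ N := by
    have : (y : ℝ) ^ 2 ≤ N := by
      calc (y : ℝ) ^ 2 ≤ (s * l ^ A) ^ 2 := pow_le_pow_left₀ hy0 hy2 2
        _ = m * l ^ (2 * A) := by
            rw [← hss]
            ring
        _ ≤ X * (j : ℝ) ^ (2 * A) := by gcongr
        _ = N := hNr.symm
    exact_mod_cast this
  refine (hH3 y hyN).trans ?_
  have hsN : Real.sqrt N ≤ 2 * s * (4 * l) ^ A := by
    apply Real.sqrt_le_iff.2
    refine ⟨by positivity, ?_⟩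
    rw [hNr]
    calc (X : ℝ) * (j : ℝ) ^ (2 * A) ≤ 2 * m * (4 * l) ^ (2 * A) := by gcongr
      _ ≤ 4 * m * (4 * l) ^ (2 * A) := by
          apply mul_le_mul_of_nonneg_right (by linarith) (by positivity)
      _ = (2 * s * (4 * l) ^ A) ^ 2 := by
          rw [← hss]
          ring
  have hC : l ^ (4 * A + 4) ≤ Real.log N ^ (4 * A + 4) := pow_le_pow_left₀ hl0.le hlN1 _
  calc Real.sqrt N / Real.log N ^ (4 * A + 4) ≤ 2 * s * (4 * l) ^ A / l ^ (4 * A + 4) :=
        div_le_div₀ (by positivity) hsN (by positivity) hC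
    _ ≤ (1 / (4 * l)) * (s / l ^ A) / l ^ A := by
        rw [div_le_div_iff₀ (by positivity) (by positivity), mul_pow]
        have e : (1 / (4 * l)) * (s / l ^ A) * l ^ (4 * A + 4) = s * (l ^ (3 * A + 2) * l / 4) := by
          rw [show 4 * A + 4 = (3 * A + 2) + 1 + 1 + A by ring, pow_add, pow_add, pow_add, pow_one]
          field_simp
        rw [e]
        have e2 : 2 * s * (4 ^ A * l ^ A) * l ^ A = s * (l ^ (2 * A) * (2 * 4 ^ A)) := by
          rw [two_mul A, pow_add]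
          ring
        rw [e2]
        apply mul_le_mul_of_nonneg_left _ hs0.le
        have e3 : l ^ (2 * A) ≤ l ^ (3 * A + 2) := pow_le_pow_right₀ (by linarith) (by omega)
        have e4 : 2 * (4 : ℝ) ^ A ≤ l / 4 := by linarith
        calc l ^ (2 * A) * (2 * 4 ^ A) ≤ l ^ (3 * A + 2) * (l / 4) :=
              mul_le_mul e3 e4 (by positivity) (by positivity)
          _ = l ^ (3 * A + 2) * l / 4 := by ring
    _ ≤ H * y / l ^ A := by
        apply div_le_div_of_nonneg_right _ (by positivity)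
        exact mul_le_mul hHlo hy1 (by positivity) ((by positivity : (0 : ℝ) ≤ 1 / (4 * l)).trans hHlo)

open Classical in
/-- the number of the exceptions, all scales -/
theorem count_bad (A U : ℕ) (V : Set ℕ) (hV : ∀ m ∈ V, ∃ a : ℤ, a.natAbs = m ∧ ¬ Formula A a) :
    ∃ X₀ : ℕ, ∀ X : ℕ, X₀ ≤ X →
      (((Icc 1 X).filter (fun l => l ∈ V)).card : ℝ) ≤ X / (Real.log X) ^ U := by
  obtain ⟨S, hS⟩ : ∃ S : ℕ → Set ℕ, ∀ X m, m ∈ S X ↔
      (¬ GoodP (4 * A + 4) (sc A X) (m : ℤ) ∨ ¬ GoodP (4 * A + 4) (sc A X) (-(m : ℤ))) :=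
    ⟨fun X => {m : ℕ | ¬ GoodP (4 * A + 4) (sc A X) (m : ℤ) ∨ ¬ GoodP (4 * A + 4) (sc A X) (-(m : ℤ))},
      fun X m => Iff.rfl⟩
  refine Pool.Agent.J4.H74.Dyad.dyadic_count S V U ?_ ?_
  · obtain ⟨N₀, hN₀⟩ := goodP_count (4 * A + 4) (U + 1 + 2 * A + 1)
    have e1 : ∀ᶠ X : ℕ in atTop, 2 * 4 ^ (2 * A) ≤ Real.log X :=
      (Real.tendsto_log_atTop.comp tendsto_natCast_atTop_atTop).eventually_ge_atTop _
    obtain ⟨X₁, h1⟩ := eventually_atTop.1 e1
    refine ⟨N₀ + X₁ + 2, fun X hX => ?_⟩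
    have hX2 : 2 ≤ X := by omega
    have hX2r : (2 : ℝ) ≤ X := by exact_mod_cast hX2
    have hX0 : (0 : ℝ) < X := by linarith
    have hlX := h1 X (by omega)
    have h4A : (1 : ℝ) ≤ 4 ^ (2 * A) := one_le_pow₀ (by norm_num)
    obtain ⟨L, hL⟩ : ∃ L, L = Real.log (X : ℝ) := ⟨_, rfl⟩
    rw [← hL] at hlX ⊢
    have hL2 : 2 ≤ L := by linarith
    have hL0 : 0 < L := by linarith
    obtain ⟨j, hj⟩ : ∃ j, j = Nat.log 2 X := ⟨_, rfl⟩
    have hj1 : 1 ≤ j := by
      rw [hj]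
      exact Nat.le_log_of_pow_le (by norm_num) (by omega)
    have hj1r : (1 : ℝ) ≤ j := by exact_mod_cast hj1
    have hjL : (j : ℝ) ≤ 2 * L := by
      have h2 : (2 : ℝ) ^ j ≤ X := by
        have : 2 ^ j ≤ X := by rw [hj]; exact Nat.pow_log_le_self 2 (by omega)
        exact_mod_cast this
      have h3 := Real.log_le_log (by positivity) h2
      rw [Real.log_pow] at h3
      have h4 := Real.log_two_gt_d9
      have h5 : (j : ℝ) * (1 / 2) ≤ j * Real.log 2 := mul_le_mul_of_nonneg_left (by linarith) (by linarith)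
      rw [hL]
      linarith
    obtain ⟨N, hN⟩ : ∃ N : ℕ, N = sc A X := ⟨_, rfl⟩
    have hNr : (N : ℝ) = X * (j : ℝ) ^ (2 * A) := by
      rw [hN]
      unfold sc
      rw [← hj]
      push_cast
      ring
    have hXN : X ≤ N := by
      have : (X : ℝ) ≤ N := by
        rw [hNr]
        exact le_mul_of_one_le_right hX0.le (one_le_pow₀ hj1r)
      exact_mod_cast this
    have hXNr : (X : ℝ) ≤ N := by exact_mod_cast hXN
    have hLN : L ≤ Real.log N := by
      rw [hL]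
      exact Real.log_le_log hX0 hXNr
    have c1 := hN₀ N (by omega)
    obtain ⟨Bd, hBd⟩ : ∃ Bd : Finset ℤ, Bd = (Icc (-(N : ℤ)) N).filter (fun a : ℤ => ¬ GoodP (4 * A + 4) N a) :=
      ⟨_, rfl⟩
    rw [← hBd] at c1
    have hsub : (Icc 1 X).filter (fun v => v ∈ S X) ⊆ Bd.image Int.natAbs := by
      intro m hm
      rw [mem_filter, mem_Icc, hS, ← hN] at hm
      obtain ⟨⟨hm1, hm2⟩, hm3⟩ := hm
      have hmN : m ≤ N := hm2.trans hXN
      rw [mem_image]
      rcases hm3 with h | h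
      · refine ⟨(m : ℤ), ?_, Int.natAbs_natCast m⟩
        rw [hBd, mem_filter, mem_Icc]
        exact ⟨⟨by omega, by omega⟩, h⟩
      · refine ⟨-(m : ℤ), ?_, by rw [Int.natAbs_neg, Int.natAbs_natCast]⟩
        rw [hBd, mem_filter, mem_Icc]
        exact ⟨⟨by omega, by omega⟩, h⟩
    have hcard : (((Icc 1 X).filter (fun v => v ∈ S X)).card : ℝ) ≤ #Bd := by
      exact_mod_cast (card_le_card hsub).trans card_image_le
    refine hcard.trans (c1.trans ?_)
    obtain ⟨LN, hLN'⟩ : ∃ LN, LN = Real.log (N : ℝ) := ⟨_, rfl⟩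
    rw [← hLN'] at hLN ⊢
    rw [hNr]
    calc (X : ℝ) * (j : ℝ) ^ (2 * A) / LN ^ (U + 1 + 2 * A + 1)
        ≤ X * (2 * L) ^ (2 * A) / L ^ (U + 1 + 2 * A + 1) := by gcongr
      _ = X / L ^ (U + 1) * (2 ^ (2 * A) / L) := by
          rw [mul_pow, pow_add, pow_add, pow_one]
          field_simp
      _ ≤ X / L ^ (U + 1) := by
          apply mul_le_of_le_one_right (by positivity)
          rw [div_le_one hL0]
          have : (2 : ℝ) ^ (2 * A) ≤ 4 ^ (2 * A) := pow_le_pow_left₀ (by norm_num) (by norm_num) _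
          linarith
  · obtain ⟨m₀, hm₀⟩ := formula_of_goodP A
    refine ⟨m₀, fun l hl hl2 => ?_⟩
    rw [hS]
    by_contra hcon
    push Not at hcon
    obtain ⟨a, ha, hna⟩ := hV l hl
    apply hna
    apply hm₀ l hl2 a ha
    rcases Int.natAbs_eq a with h | h
    · rw [h, ha]
      exact hcon.1
    · rw [h, ha]
      exact hcon.2

end Pool.Agent.J4.H74.TC
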